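import Pool.Agent.TH304.MI.Stm

/-!
# Project MI, job 3790: rotated averages and tangential fields
-/

set_option autoImplicit false

open MeasureTheory Set Metric Filter Topology
open scoped ENNReal Real

noncomputable section

namespace Pool.Agent.TH154.MI

open Pool.Agent.TH304.MI

/-- A parametric interval integral with a jointly continuous derivative is `C¹`. -/
lemma cd_param {G : ℂ → ℝ → ℝ} {G' : ℂ → ℝ → ℂ →L[ℝ] ℝ}
    (hG : Continuous (Function.uncurry G)) (hG' : Continuous (Function.uncurry G'))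
    (hd : ∀ x u, HasFDerivAt (fun x => G x u) (G' x u) x) (a b : ℝ) :
    ContDiff ℝ 1 (fun x => ∫ u in a..b, G x u) := by
  have hfd : ∀ x, HasFDerivAt (fun x => ∫ u in a..b, G x u) (∫ u in a..b, G' x u) x := by
    intro x
    obtain ⟨M, hM⟩ := ((isCompact_closedBall x 1).prod
      (isCompact_uIcc (a := a) (b := b))).exists_bound_of_continuousOn hG'.continuousOn
    refine intervalIntegral.hasFDerivAt_integral_of_dominated_of_fderiv_le
      (bound := fun _ => M) (F' := G') (ball_mem_nhds x one_pos) ?_ ?_ ?_ ?_ ?_ ?_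
    · exact Eventually.of_forall fun y =>
        (hG.comp (Continuous.prodMk_right y)).aestronglyMeasurable
    · exact (hG.comp (Continuous.prodMk_right x)).intervalIntegrable _ _
    · exact (hG'.comp (Continuous.prodMk_right x)).aestronglyMeasurable
    · refine Eventually.of_forall fun t ht y hy => ?_
      exact hM (y, t) ⟨ball_subset_closedBall hy, uIoc_subset_uIcc ht⟩
    · exact intervalIntegrable_const
    · exact Eventually.of_forall fun t _ y _ => hd y t
  rw [contDiff_one_iff_fderiv]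
  refine ⟨fun x => (hfd x).differentiableAt, ?_⟩
  have : fderiv ℝ (fun x => ∫ u in a..b, G x u) = fun x => ∫ u in a..b, G' x u := by
    funext x; exact (hfd x).fderiv
  rw [this]
  exact intervalIntegral.continuous_parametric_intervalIntegral_of_continuous' hG' a b

/-- `e^{iu}`. -/
def ex (u : ℝ) : ℂ := Complex.exp (u * Complex.I)

lemma ex_norm (u : ℝ) : ‖ex u‖ = 1 := Complex.norm_exp_ofReal_mul_I u

lemma ex_add (u v : ℝ) : ex (u + v) = ex u * ex v := by
  unfold ex; rw [← Complex.exp_add]; push_cast; ring_nf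

lemma ex_zero : ex 0 = 1 := by unfold ex; simp

lemma ex_cont : Continuous ex := by unfold ex; fun_prop

lemma ex_two_pi : ex (2 * π) = 1 := by
  unfold ex; push_cast; exact Complex.exp_two_pi_mul_I

lemma ex_hd (u : ℝ) : HasDerivAt ex (ex u * Complex.I) u := by
  unfold ex
  have h1 : HasDerivAt (fun u : ℝ => (u : ℂ) * Complex.I) (1 * Complex.I) u :=
    (Complex.ofRealCLM.hasDerivAt (x := u)).mul_const _
  have := h1.cexp
  simpa using this

/-- The rotated average (not normalised). -/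
def Fa (g : ℂ → ℝ) (φ : ℝ) (z : ℂ) : ℝ := ∫ u in (0 : ℝ)..φ, g (ex (-u) * z)

lemma Fa_cd (g : ℂ → ℝ) (hg : ContDiff ℝ 1 g) (φ : ℝ) : ContDiff ℝ 1 (Fa g φ) := by
  have hgc : Continuous g := hg.continuous
  have hg' : Continuous (fderiv ℝ g) := hg.continuous_fderiv one_ne_zero
  refine cd_param (G := fun z u => g (ex (-u) * z))
    (G' := fun z u => (fderiv ℝ g (ex (-u) * z)).comp
      ((ex (-u)) • (ContinuousLinearMap.id ℝ ℂ))) ?_ ?_ ?_ 0 φ
  · have : Continuous (fun p : ℂ × ℝ => ex (-p.2) * p.1) :=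
      (ex_cont.comp (continuous_snd.neg)).mul continuous_fst
    exact hgc.comp this
  · have h1 : Continuous (fun p : ℂ × ℝ => ex (-p.2) * p.1) :=
      (ex_cont.comp (continuous_snd.neg)).mul continuous_fst
    have h2 : Continuous (fun p : ℂ × ℝ => (ex (-p.2)) • (ContinuousLinearMap.id ℝ ℂ)) :=
      (ex_cont.comp (continuous_snd.neg)).smul continuous_const
    exact (hg'.comp h1).clm_comp h2
  · intro x u
    have h1 : HasFDerivAt (fun z : ℂ => ex (-u) * z)
        ((ex (-u)) • (ContinuousLinearMap.id ℝ ℂ)) x :=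
      (hasFDerivAt_id x).const_mul (ex (-u))
    have h2 : HasFDerivAt g (fderiv ℝ g (ex (-u) * x)) (ex (-u) * x) :=
      (hg.differentiable one_ne_zero).differentiableAt.hasFDerivAt
    exact h2.comp x h1

lemma Fa_bd (g : ℂ → ℝ) (hb : ∀ z, |g z| ≤ 1) (φ : ℝ) (hφ : 0 ≤ φ) (z : ℂ) :
    |Fa g φ z| ≤ φ := by
  have := intervalIntegral.norm_integral_le_of_norm_le_const (a := 0) (b := φ)
    (f := fun u => g (ex (-u) * z)) (C := 1) (fun u _ => by
      simpa [Real.norm_eq_abs] using hb (ex (-u) * z))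
  simpa [Fa, Real.norm_eq_abs, abs_of_nonneg hφ] using this

lemma Fa_rot (g : ℂ → ℝ) (φ t : ℝ) (z : ℂ) :
    Fa g φ (ex t * z) = ∫ v in (t - φ)..t, g (ex v * z) := by
  unfold Fa
  have h := intervalIntegral.integral_comp_sub_left (a := 0) (b := φ)
    (fun v => g (ex v * z)) t
  rw [sub_zero] at h
  rw [← h]
  refine intervalIntegral.integral_congr fun u _ => ?_
  show g (ex (-u) * (ex t * z)) = g (ex (t - u) * z)
  rw [← mul_assoc, ← ex_add]
  congr 3
  ring

lemma Fa_hd (g : ℂ → ℝ) (hg : Continuous g) (φ : ℝ) (z : ℂ) :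
    HasDerivAt (fun t => Fa g φ (ex t * z)) (g z - g (ex (-φ) * z)) 0 := by
  have hc : Continuous (fun v => g (ex v * z)) := hg.comp (ex_cont.mul continuous_const)
  have h1 : (fun t => Fa g φ (ex t * z)) =
      fun t => (∫ v in (0 : ℝ)..t, g (ex v * z)) - ∫ v in (0 : ℝ)..(t - φ), g (ex v * z) := by
    funext t
    rw [Fa_rot, intervalIntegral.integral_interval_sub_left (hc.intervalIntegrable _ _)
      (hc.intervalIntegrable _ _)]
  rw [h1]
  have h2 : HasDerivAt (fun t => ∫ v in (0 : ℝ)..t, g (ex v * z)) (g (ex 0 * z)) 0 :=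
    (hc.integral_hasStrictDerivAt 0 0).hasDerivAt
  have h3 : HasDerivAt (fun t => ∫ v in (0 : ℝ)..t, g (ex v * z)) (g (ex (0 - φ) * z)) (0 - φ) :=
    (hc.integral_hasStrictDerivAt 0 (0 - φ)).hasDerivAt
  have h4 : HasDerivAt (fun t : ℝ => t - φ) 1 0 := (hasDerivAt_id 0).sub_const φ
  have h5 := h3.comp (0 : ℝ) h4
  have h6 := h2.sub h5
  rw [ex_zero, one_mul, zero_sub, mul_one] at h6
  exact h6

/-- Divergence of `h(z) · i z`. -/
lemma dv2_tan (h : ℂ → ℝ) (z : ℂ) (hh : DifferentiableAt ℝ h z) :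
    dv2 (fun z => (h z : ℂ) * (Complex.I * z)) z = fderiv ℝ h z (Complex.I * z) := by
  have h1 : HasFDerivAt (fun z : ℂ => (h z : ℂ))
      (Complex.ofRealCLM.comp (fderiv ℝ h z)) z :=
    Complex.ofRealCLM.hasFDerivAt.comp z hh.hasFDerivAt
  have h2 : HasFDerivAt (fun z : ℂ => Complex.I * z)
      (Complex.I • (ContinuousLinearMap.id ℝ ℂ)) z := (hasFDerivAt_id z).const_mul Complex.I
  have h3 := h1.mul h2
  unfold dv2
  have h4 : fderiv ℝ (fun z : ℂ => (h z : ℂ) * (Complex.I * z)) z = _ := h3.fderiv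
  rw [h4]
  have e1 : Complex.I * z = (-z.im) • (1 : ℂ) + z.re • Complex.I := by
    apply Complex.ext <;> simp
  rw [e1, map_add, map_smul, map_smul]
  simp [Complex.add_re, Complex.mul_re, Complex.mul_im, Complex.add_im]

lemma dv2_add (X Y : ℂ → ℂ) (z : ℂ) (hX : DifferentiableAt ℝ X z)
    (hY : DifferentiableAt ℝ Y z) : dv2 (fun z => X z + Y z) z = dv2 X z + dv2 Y z := by
  unfold dv2
  have : fderiv ℝ (fun z => X z + Y z) z = fderiv ℝ X z + fderiv ℝ Y z :=
    fderiv_add hX hY
  rw [this]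
  simp only [add_apply, Complex.add_re, Complex.add_im]
  ring

/-- The angular derivative. -/
lemma fd_rot (h : ℂ → ℝ) (z : ℂ) (hh : DifferentiableAt ℝ h z) :
    HasDerivAt (fun t : ℝ => h (ex t * z)) (fderiv ℝ h z (Complex.I * z)) 0 := by
  have h1 : HasDerivAt (fun t : ℝ => ex t * z) (ex 0 * Complex.I * z) 0 :=
    (ex_hd 0).mul_const z
  rw [ex_zero, one_mul] at h1
  have h2 : HasFDerivAt h (fderiv ℝ h z) (ex 0 * z) := by
    rw [ex_zero, one_mul]; exact hh.hasFDerivAt
  exact h2.comp_hasDerivAt (0 : ℝ) h1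

/-! ## Radial weights -/

lemma w_cont (f : ℝ → ℝ) (hf : Continuous f) (h0 : tsupport f ⊆ Ioo (0 : ℝ) 1) :
    Continuous (fun z : ℂ => f ‖z‖ / ‖z‖) := by
  rw [continuous_iff_continuousAt]
  intro z
  by_cases hz : z = 0
  · have h1 : (0 : ℝ) ∉ tsupport f := fun h => lt_irrefl _ (h0 h).1
    have h2 : ∀ᶠ r in 𝓝 (0 : ℝ), f r = 0 := by
      have := (isClosed_tsupport f).isOpen_compl.mem_nhds h1
      filter_upwards [this] with r hr
      exact image_eq_zero_of_notMem_tsupport hr
    have h3 : ∀ᶠ w in 𝓝 z, f ‖w‖ / ‖w‖ = 0 := by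
      have ht : Tendsto (fun w : ℂ => ‖w‖) (𝓝 z) (𝓝 0) := by
        have := (continuous_norm (E := ℂ)).tendsto z
        rw [hz, norm_zero] at this
        rw [hz]
        exact this
      filter_upwards [ht.eventually h2] with w hw
      rw [hw, zero_div]
    exact (continuousAt_const (y := (0 : ℝ))).congr (by
      filter_upwards [h3] with w hw using hw.symm)
  · exact (hf.comp continuous_norm).continuousAt.div continuous_norm.continuousAt
      (by simpa using hz)

lemma w_cd (f : ℝ → ℝ) (hf : ContDiff ℝ 1 f) (h0 : tsupport f ⊆ Ioo (0 : ℝ) 1) :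
    ContDiff ℝ 1 (fun z : ℂ => f ‖z‖ / ‖z‖) := by
  rw [contDiff_iff_contDiffAt]
  intro z
  by_cases hz : z = 0
  · have h1 : (0 : ℝ) ∉ tsupport f := fun h => lt_irrefl _ (h0 h).1
    have h2 : ∀ᶠ r in 𝓝 (0 : ℝ), f r = 0 := by
      have := (isClosed_tsupport f).isOpen_compl.mem_nhds h1
      filter_upwards [this] with r hr
      exact image_eq_zero_of_notMem_tsupport hr
    have h3 : ∀ᶠ w in 𝓝 z, f ‖w‖ / ‖w‖ = 0 := by
      have ht : Tendsto (fun w : ℂ => ‖w‖) (𝓝 z) (𝓝 0) := by
        have := (continuous_norm (E := ℂ)).tendsto z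
        rw [hz, norm_zero] at this
        rw [hz]
        exact this
      filter_upwards [ht.eventually h2] with w hw
      rw [hw, zero_div]
    exact (contDiffAt_const (c := (0 : ℝ))).congr_of_eventuallyEq h3
  · have hn : ContDiffAt ℝ 1 (fun w : ℂ => ‖w‖) z := contDiffAt_norm ℝ hz
    exact (hf.contDiffAt.comp z hn).div hn (by simpa using hz)

lemma w_sup (f : ℝ → ℝ) (h0 : tsupport f ⊆ Ioo (0 : ℝ) 1) :
    HasCompactSupport (fun z : ℂ => f ‖z‖ / ‖z‖) ∧
      tsupport (fun z : ℂ => f ‖z‖ / ‖z‖) ⊆ D1 \ {0} := by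
  have hK : IsClosed {z : ℂ | ‖z‖ ∈ tsupport f} :=
    (isClosed_tsupport f).preimage continuous_norm
  have hsub : tsupport (fun z : ℂ => f ‖z‖ / ‖z‖) ⊆ {z : ℂ | ‖z‖ ∈ tsupport f} := by
    refine closure_minimal ?_ hK
    intro z hz
    by_contra hcon
    exact hz (by
      have : f ‖z‖ = 0 := image_eq_zero_of_notMem_tsupport hcon
      simp [this])
  have hsub2 : {z : ℂ | ‖z‖ ∈ tsupport f} ⊆ D1 \ {0} := by
    intro z hz
    have := h0 hz
    refine ⟨by simpa [D1] using this.2, ?_⟩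
    intro h
    rw [mem_singleton_iff] at h
    rw [h, norm_zero] at this
    exact lt_irrefl _ this.1
  refine ⟨?_, hsub.trans hsub2⟩
  refine HasCompactSupport.of_support_subset_isCompact (K := closedBall (0 : ℂ) 1)
    (isCompact_closedBall _ _) ?_
  intro z hz
  have h1 := hsub2 (hsub (subset_tsupport _ hz))
  exact ball_subset_closedBall h1.1

end Pool.Agent.TH154.MI
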