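import Pool.Agent.TH154.MI.Rot

/-!
# Project MI, job 3790: the x-ray lower bound
-/

set_option autoImplicit false

open MeasureTheory Set Metric Filter Topology
open scoped ENNReal Real

noncomputable section

namespace Pool.Agent.TH154.MI

open Pool.Agent.TH304.MI

/-- Difference of the indicator of `A` and its rotation. -/
def si (A : Set ℂ) (φ : ℝ) (z : ℂ) : ℝ :=
  A.indicator (fun _ => (1 : ℝ)) z - A.indicator (fun _ => (1 : ℝ)) (ex φ * z)

lemma si_meas (A : Set ℂ) (hA : MeasurableSet A) (φ : ℝ) : Measurable (si A φ) := by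
  unfold si
  have h1 : Measurable (A.indicator (fun _ => (1 : ℝ))) := measurable_const.indicator hA
  exact h1.sub (h1.comp (measurable_const_mul _))

lemma ind_cases (A : Set ℂ) (z : ℂ) : A.indicator (fun _ => (1 : ℝ)) z = 0 ∨
    A.indicator (fun _ => (1 : ℝ)) z = 1 := by
  by_cases h : z ∈ A
  · right; exact indicator_of_mem h _
  · left; exact indicator_of_notMem h _

lemma si_bd (A : Set ℂ) (φ : ℝ) (z : ℂ) : |si A φ z| ≤ 1 := by
  unfold si
  rcases ind_cases A z with h | h <;> rcases ind_cases A (ex φ * z) with h' | h' <;>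
    rw [h, h'] <;> norm_num

lemma si_sq (A : Set ℂ) (φ : ℝ) (z : ℂ) : si A φ z * si A φ z = |si A φ z| := by
  unfold si
  rcases ind_cases A z with h | h <;> rcases ind_cases A (ex φ * z) with h' | h' <;>
    rw [h, h'] <;> norm_num

lemma int_rot (F : ℂ → ℝ) (φ : ℝ) : ∫ z, F (ex φ * z) = ∫ z, F z := by
  have h := (rotation (Circle.exp φ)).measurePreserving.integral_comp
    (rotation (Circle.exp φ)).toHomeomorph.measurableEmbedding F
  simpa [rotation_apply, Circle.coe_exp, ex] using h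

/-- The field used in the x-ray inequality. -/
lemma fld (hrad : S_rad) (b : ℕ) (N s : ℝ → ℝ)
    (hN : ContDiff ℝ 1 N) (hNc : HasCompactSupport N) (hN0 : tsupport N ⊆ Ioo (0 : ℝ) 1)
    (hs : ContDiff ℝ 1 s) (hs0 : tsupport s ⊆ Ioo (0 : ℝ) 1)
    (hbd : ∀ r ∈ Ioo (0 : ℝ) 1, s r ^ 2 + (N r / r) ^ 2 ≤ (1 - r) ^ (2 * b))
    (g : ℂ → ℝ) (hg : ContDiff ℝ 1 g) (hg1 : ∀ z, |g z| ≤ 1) (φ : ℝ) (hφ : 0 < φ) :
    Fl2 b (D1 \ {0}) (fun z => ((N ‖z‖ / ‖z‖ ^ 2 : ℝ) : ℂ) * z +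
      (((s ‖z‖ / ‖z‖) * (Fa g φ z / φ) : ℝ) : ℂ) * (Complex.I * z)) ∧
    (∀ z, dv2 (fun z => ((N ‖z‖ / ‖z‖ ^ 2 : ℝ) : ℂ) * z +
      (((s ‖z‖ / ‖z‖) * (Fa g φ z / φ) : ℝ) : ℂ) * (Complex.I * z)) z =
      deriv N ‖z‖ / ‖z‖ + (s ‖z‖ / ‖z‖) / φ * (g z - g (ex (-φ) * z))) := by
  obtain ⟨hX1, hX2, hX3, hX4, hX5⟩ := hrad N hN hNc hN0
  have hw := w_cd s hs hs0
  obtain ⟨hwc, hws⟩ := w_sup s hs0
  have hh : ContDiff ℝ 1 (fun z : ℂ => (s ‖z‖ / ‖z‖) * (Fa g φ z / φ)) :=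
    hw.mul ((Fa_cd g hg φ).div_const φ)
  have hT : ContDiff ℝ 1 (fun z : ℂ => (((s ‖z‖ / ‖z‖) * (Fa g φ z / φ) : ℝ) : ℂ) *
      (Complex.I * z)) :=
    (Complex.ofRealCLM.contDiff.comp hh).mul (contDiff_const.mul contDiff_id)
  have hsub : Function.support (fun z : ℂ => (((s ‖z‖ / ‖z‖) * (Fa g φ z / φ) : ℝ) : ℂ) *
      (Complex.I * z)) ⊆ Function.support (fun z : ℂ => s ‖z‖ / ‖z‖) := by
    intro z hz hcon
    apply hz
    simp only at hcon ⊢
    rw [hcon]; simp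
  have hTs : tsupport (fun z : ℂ => (((s ‖z‖ / ‖z‖) * (Fa g φ z / φ) : ℝ) : ℂ) *
      (Complex.I * z)) ⊆ D1 \ {0} := (closure_mono hsub).trans hws
  have hTc : HasCompactSupport (fun z : ℂ => (((s ‖z‖ / ‖z‖) * (Fa g φ z / φ) : ℝ) : ℂ) *
      (Complex.I * z)) := hwc.mono hsub
  refine ⟨⟨hX1.add hT, hX2.add hTc, ?_, ?_⟩, ?_⟩
  · exact (tsupport_add _ _).trans (union_subset hX3 hTs)
  · intro z hz
    by_cases h0 : z = 0
    · subst h0
      simp only [norm_zero, mul_zero, add_zero, sub_zero, one_pow]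
      norm_num
    · have hr : 0 < ‖z‖ := norm_pos_iff.2 h0
      have hb := hbd ‖z‖ ⟨hr, hz⟩
      have hF : |Fa g φ z / φ| ≤ 1 := by
        rw [abs_div, abs_of_pos hφ]
        exact div_le_one_of_le₀ (Fa_bd g hg1 φ hφ.le z) hφ.le
      set a : ℝ := N ‖z‖ / ‖z‖ ^ 2 with ha
      set q : ℝ := Fa g φ z / φ with hq
      set h : ℝ := (s ‖z‖ / ‖z‖) * q with hh'
      have e1 : (a : ℂ) * z + (h : ℂ) * (Complex.I * z) = ((a : ℂ) + h * Complex.I) * z := by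
        ring
      have e2 : ‖(a : ℂ) + h * Complex.I‖ ^ 2 = a ^ 2 + h ^ 2 := by
        rw [← Complex.normSq_eq_norm_sq, Complex.normSq_add_mul_I]
      have e3 : ‖(a : ℂ) * z + (h : ℂ) * (Complex.I * z)‖ ^ 2 =
          (N ‖z‖ / ‖z‖) ^ 2 + (s ‖z‖ * q) ^ 2 := by
        rw [e1, norm_mul, mul_pow, e2, ha, hh']
        field_simp
      have e4 : (s ‖z‖ * q) ^ 2 ≤ s ‖z‖ ^ 2 := by
        rw [mul_pow]
        have : q ^ 2 ≤ 1 := by
          rw [← sq_abs]; exact pow_le_one₀ (abs_nonneg _) hF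
        nlinarith [sq_nonneg (s ‖z‖)]
      have e5 : ‖(a : ℂ) * z + (h : ℂ) * (Complex.I * z)‖ ^ 2 ≤ ((1 - ‖z‖) ^ b) ^ 2 := by
        rw [e3, ← pow_mul, mul_comm b 2]
        linarith
      exact (abs_le_of_sq_le_sq' e5 (pow_nonneg (by linarith) _)).2
  · intro z
    have hXd : DifferentiableAt ℝ (fun z : ℂ => ((N ‖z‖ / ‖z‖ ^ 2 : ℝ) : ℂ) * z) z :=
      (hX1.differentiable one_ne_zero).differentiableAt
    have hTd : DifferentiableAt ℝ (fun z : ℂ => (((s ‖z‖ / ‖z‖) * (Fa g φ z / φ) : ℝ) : ℂ) *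
      (Complex.I * z)) z := (hT.differentiable one_ne_zero).differentiableAt
    rw [dv2_add _ _ z hXd hTd, hX5 z]
    congr 1
    have hhd : DifferentiableAt ℝ (fun z : ℂ => (s ‖z‖ / ‖z‖) * (Fa g φ z / φ)) z :=
      (hh.differentiable one_ne_zero).differentiableAt
    rw [dv2_tan (fun z : ℂ => (s ‖z‖ / ‖z‖) * (Fa g φ z / φ)) z hhd]
    have h1 := fd_rot (fun z : ℂ => (s ‖z‖ / ‖z‖) * (Fa g φ z / φ)) z hhd
    have h2 : HasDerivAt (fun t : ℝ => (s ‖z‖ / ‖z‖) * (Fa g φ (ex t * z) / φ))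
        ((s ‖z‖ / ‖z‖) * ((g z - g (ex (-φ) * z)) / φ)) 0 :=
      ((Fa_hd g hg.continuous φ z).div_const φ).const_mul _
    have h3 : (fun t : ℝ => (fun z : ℂ => (s ‖z‖ / ‖z‖) * (Fa g φ z / φ)) (ex t * z)) =
        fun t : ℝ => (s ‖z‖ / ‖z‖) * (Fa g φ (ex t * z) / φ) := by
      funext t
      simp only [norm_mul, ex_norm, one_mul]
    rw [h3] at h1
    rw [h1.unique h2]
    ring

/-- First form: testing with a `C¹` function `g`. -/
lemma test (hrad : S_rad) (b : ℕ) (A : Set ℂ) (hA : MeasurableSet A) (C : ℝ)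
    (hP : P2 b (D1 \ {0}) A C) (N s : ℝ → ℝ)
    (hN : ContDiff ℝ 1 N) (hNc : HasCompactSupport N) (hN0 : tsupport N ⊆ Ioo (0 : ℝ) 1)
    (hs : ContDiff ℝ 1 s) (hs0 : tsupport s ⊆ Ioo (0 : ℝ) 1)
    (hbd : ∀ r ∈ Ioo (0 : ℝ) 1, s r ^ 2 + (N r / r) ^ 2 ≤ (1 - r) ^ (2 * b))
    (g : ℂ → ℝ) (hg : ContDiff ℝ 1 g) (hg1 : ∀ z, |g z| ≤ 1) (φ : ℝ) (hφ : 0 < φ) :
    φ⁻¹ * ∫ z, (s ‖z‖ / ‖z‖) * g z * si A φ z ≤ C - ∫ z in A, deriv N ‖z‖ / ‖z‖ := by
  obtain ⟨hF, hd⟩ := fld hrad b N s hN hNc hN0 hs hs0 hbd g hg hg1 φ hφ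
  have h1 := hP _ hF
  have hw := w_cont s hs.continuous hs0
  obtain ⟨hwc, -⟩ := w_sup s hs0
  have hdN : Continuous (deriv N) := hN.continuous_deriv le_rfl
  have hdN0 : tsupport (deriv N) ⊆ Ioo (0 : ℝ) 1 := tsupport_deriv_subset.trans hN0
  have hk1 : Integrable (fun z : ℂ => deriv N ‖z‖ / ‖z‖) :=
    (w_cont _ hdN hdN0).integrable_of_hasCompactSupport (w_sup _ hdN0).1
  have hgc : Continuous g := hg.continuous
  have hm1 : Integrable (fun z : ℂ => (s ‖z‖ / ‖z‖) * g z) :=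
    (hw.mul hgc).integrable_of_hasCompactSupport hwc.mul_right
  have hm2 : Integrable (fun z : ℂ => (s ‖z‖ / ‖z‖) * g (ex (-φ) * z)) :=
    (hw.mul (hgc.comp (continuous_const_mul _))).integrable_of_hasCompactSupport hwc.mul_right
  have h2 : ∫ z in A, dv2 (fun z => ((N ‖z‖ / ‖z‖ ^ 2 : ℝ) : ℂ) * z +
      (((s ‖z‖ / ‖z‖) * (Fa g φ z / φ) : ℝ) : ℂ) * (Complex.I * z)) z =
      (∫ z in A, deriv N ‖z‖ / ‖z‖) + φ⁻¹ * ((∫ z in A, (s ‖z‖ / ‖z‖) * g z) -
        ∫ z in A, (s ‖z‖ / ‖z‖) * g (ex (-φ) * z)) := by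
    have hm3 : Integrable (fun z : ℂ => φ⁻¹ * ((s ‖z‖ / ‖z‖) * g z -
        (s ‖z‖ / ‖z‖) * g (ex (-φ) * z))) := (hm1.sub hm2).const_mul _
    rw [← integral_sub hm1.integrableOn hm2.integrableOn, ← integral_const_mul,
      ← integral_add hk1.integrableOn hm3.integrableOn]
    refine integral_congr_ae (ae_of_all _ fun z => ?_)
    simp only [hd z]
    ring
  rw [h2] at h1
  have h3 : ∫ z in A, (s ‖z‖ / ‖z‖) * g z =
      ∫ z, (s ‖z‖ / ‖z‖) * g z * A.indicator (fun _ => (1 : ℝ)) z := by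
    rw [← integral_indicator hA]
    refine integral_congr_ae (ae_of_all _ fun z => ?_)
    by_cases hz : z ∈ A
    · simp [indicator_of_mem hz]
    · simp [indicator_of_notMem hz]
  have h4 : ∫ z in A, (s ‖z‖ / ‖z‖) * g (ex (-φ) * z) =
      ∫ z, (s ‖z‖ / ‖z‖) * g z * A.indicator (fun _ => (1 : ℝ)) (ex φ * z) := by
    rw [← integral_indicator hA]
    rw [← int_rot (A.indicator fun z => (s ‖z‖ / ‖z‖) * g (ex (-φ) * z)) φ]
    refine integral_congr_ae (ae_of_all _ fun z => ?_)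
    have e : ex (-φ) * (ex φ * z) = z := by
      rw [← mul_assoc, ← ex_add, neg_add_cancel, ex_zero, one_mul]
    by_cases hz : ex φ * z ∈ A
    · simp only [indicator_of_mem hz, e, norm_mul, ex_norm, one_mul, mul_one]
    · simp only [indicator_of_notMem hz, mul_zero]
  have hi1 : Integrable (fun z : ℂ => (s ‖z‖ / ‖z‖) * g z *
      A.indicator (fun _ => (1 : ℝ)) z) := by
    refine hm1.mul_bdd (c := 1) (measurable_const.indicator hA).aestronglyMeasurable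
      (ae_of_all _ fun z => ?_)
    rcases ind_cases A z with h | h <;> rw [h] <;> norm_num
  have hi2 : Integrable (fun z : ℂ => (s ‖z‖ / ‖z‖) * g z *
      A.indicator (fun _ => (1 : ℝ)) (ex φ * z)) := by
    refine hm1.mul_bdd (c := 1) (((measurable_const (a := (1 : ℝ))).indicator hA).comp
      (measurable_const_mul (ex φ))).aestronglyMeasurable (ae_of_all _ fun z => ?_)
    rcases ind_cases A (ex φ * z) with h | h <;> simp only [h] <;> norm_num
  have h5 : ∫ z, (s ‖z‖ / ‖z‖) * g z * si A φ z =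
      (∫ z in A, (s ‖z‖ / ‖z‖) * g z) - ∫ z in A, (s ‖z‖ / ‖z‖) * g (ex (-φ) * z) := by
    rw [h3, h4, ← integral_sub hi1 hi2]
    refine integral_congr_ae (ae_of_all _ fun z => ?_)
    simp only [si]
    ring
  rw [h5]
  linarith

/-- Second form: the total variation of the rotation difference. -/
lemma var (hrad : S_rad) (b : ℕ) (A : Set ℂ) (hA : MeasurableSet A) (C : ℝ)
    (hP : P2 b (D1 \ {0}) A C) (N s : ℝ → ℝ)
    (hN : ContDiff ℝ 1 N) (hNc : HasCompactSupport N) (hN0 : tsupport N ⊆ Ioo (0 : ℝ) 1)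
    (hs : ContDiff ℝ 1 s) (hs0 : tsupport s ⊆ Ioo (0 : ℝ) 1) (hsn : ∀ r, 0 ≤ s r)
    (hbd : ∀ r ∈ Ioo (0 : ℝ) 1, s r ^ 2 + (N r / r) ^ 2 ≤ (1 - r) ^ (2 * b))
    (φ : ℝ) (hφ : 0 < φ) :
    φ⁻¹ * ∫ z, (s ‖z‖ / ‖z‖) * |si A φ z| ≤ C - ∫ z in A, deriv N ‖z‖ / ‖z‖ := by
  have hw := w_cont s hs.continuous hs0
  obtain ⟨hwc, -⟩ := w_sup s hs0
  have hwi : Integrable (fun z : ℂ => s ‖z‖ / ‖z‖) :=
    hw.integrable_of_hasCompactSupport hwc
  have hwn : ∀ z : ℂ, 0 ≤ s ‖z‖ / ‖z‖ := fun z => div_nonneg (hsn _) (norm_nonneg _)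
  have hsm := si_meas A hA φ
  have hli : LocallyIntegrable (si A φ) (volume : Measure ℂ) := by
    refine (locallyIntegrable_const (1 : ℝ)).mono hsm.aestronglyMeasurable
      (ae_of_all _ fun z => ?_)
    simpa using si_bd A φ z
  let B : ℕ → ContDiffBump (0 : ℂ) := fun k =>
    ⟨1 / (2 * ((k : ℝ) + 1)), 1 / ((k : ℝ) + 1), by positivity, by
      apply one_div_lt_one_div_of_lt <;> nlinarith [Nat.cast_nonneg (α := ℝ) k]⟩
  let G : ℕ → ℂ → ℝ := fun k =>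
    MeasureTheory.convolution ((B k).normed volume) (si A φ)
      (ContinuousLinearMap.lsmul ℝ ℝ) volume
  have hG1 : ∀ k, ContDiff ℝ 1 (G k) := fun k =>
    (B k).hasCompactSupport_normed.contDiff_convolution_left _
      ((B k).contDiff_normed) hli
  have hG2 : ∀ k z, |G k z| ≤ 1 := by
    intro k z
    have h1 : ‖∫ t, (B k).normed volume t * si A φ (z - t)‖ ≤
        ∫ t, (B k).normed volume t := by
      refine norm_integral_le_of_norm_le (B k).integrable_normed (ae_of_all _ fun t => ?_)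
      rw [norm_mul, Real.norm_eq_abs, Real.norm_eq_abs,
        abs_of_nonneg ((B k).nonneg_normed t)]
      exact mul_le_of_le_one_right ((B k).nonneg_normed t) (si_bd A φ _)
    rw [(B k).integral_normed] at h1
    exact h1
  have hG3 : ∀ᵐ z ∂(volume : Measure ℂ),
      Tendsto (fun k => G k z) atTop (𝓝 (si A φ z)) := by
    refine ContDiffBump.ae_convolution_tendsto_right_of_locallyIntegrable (K := 2) ?_ ?_ hli
    · exact tendsto_one_div_add_atTop_nhds_zero_nat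
    · refine Eventually.of_forall fun k => ?_
      show 1 / ((k : ℝ) + 1) ≤ 2 * (1 / (2 * ((k : ℝ) + 1)))
      have : (0 : ℝ) < (k : ℝ) + 1 := by positivity
      apply le_of_eq
      field_simp
  have hlim : Tendsto (fun k => ∫ z, (s ‖z‖ / ‖z‖) * G k z * si A φ z) atTop
      (𝓝 (∫ z, (s ‖z‖ / ‖z‖) * |si A φ z|)) := by
    refine tendsto_integral_of_dominated_convergence (fun z => s ‖z‖ / ‖z‖) ?_ hwi ?_ ?_
    · intro k
      exact ((hw.mul (hG1 k).continuous).aestronglyMeasurable).mul hsm.aestronglyMeasurable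
    · intro k
      refine ae_of_all _ fun z => ?_
      rw [norm_mul, norm_mul, Real.norm_eq_abs, Real.norm_eq_abs, Real.norm_eq_abs,
        abs_of_nonneg (hwn z)]
      have h1 := hG2 k z
      have h2 := si_bd A φ z
      have h3 := hwn z
      calc s ‖z‖ / ‖z‖ * |G k z| * |si A φ z| ≤ s ‖z‖ / ‖z‖ * 1 * 1 := by
            gcongr
        _ = s ‖z‖ / ‖z‖ := by ring
    · filter_upwards [hG3] with z hz
      rw [← si_sq, ← mul_assoc]
      exact (hz.const_mul _).mul_const _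
  refine le_of_tendsto (hlim.const_mul φ⁻¹) (Eventually.of_forall fun k => ?_)
  exact test hrad b A hA C hP N s hN hNc hN0 hs hs0 hbd (G k) (hG1 k) (hG2 k) φ hφ

end Pool.Agent.TH154.MI
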