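import Pool.Agent.TH154.MI.XRay

/-!
# Project MI, job 3790: the x-ray lower bound, conclusion
-/

set_option autoImplicit false

open MeasureTheory Set Metric Filter Topology
open scoped ENNReal Real

noncomputable section

namespace Pool.Agent.TH154.MI

open Pool.Agent.TH304.MI

lemma pol_symm (p : ℝ × ℝ) : Complex.polarCoord.symm p = (p.1 : ℂ) * ex p.2 := by
  rw [Complex.polarCoord_symm_apply, ex, Complex.exp_mul_I, Complex.ofReal_cos,
    Complex.ofReal_sin]

lemma meas_pol (A : Set ℂ) (hA : MeasurableSet A) (φ : ℝ) :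
    Measurable (fun p : ℝ × ℝ => ENNReal.ofReal |si A φ ((p.1 : ℂ) * ex p.2)|) := by
  have h1 : Measurable (fun p : ℝ × ℝ => (p.1 : ℂ) * ex p.2) := by
    have : Continuous (fun p : ℝ × ℝ => (p.1 : ℂ) * ex p.2) :=
      (Complex.continuous_ofReal.comp continuous_fst).mul (ex_cont.comp continuous_snd)
    exact this.measurable
  have h2 : Measurable (fun p : ℝ × ℝ => si A φ ((p.1 : ℂ) * ex p.2)) :=
    (si_meas A hA φ).comp h1
  exact (ENNReal.measurable_ofReal).comp h2.norm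

lemma polar_l (A : Set ℂ) (hA : MeasurableSet A) (s : ℝ → ℝ) (hs : Continuous s)
    (hs0 : tsupport s ⊆ Ioo (0 : ℝ) 1) (hsn : ∀ r, 0 ≤ s r) (φ : ℝ) :
    ENNReal.ofReal (∫ z, (s ‖z‖ / ‖z‖) * |si A φ z|) =
      ∫⁻ r in Ioi (0 : ℝ), ENNReal.ofReal (s r) *
        ∫⁻ θ in Ioo (-π) π, ENNReal.ofReal |si A φ ((r : ℂ) * ex θ)| := by
  have hw := w_cont s hs hs0
  obtain ⟨hwc, -⟩ := w_sup s hs0
  have hwi : Integrable (fun z : ℂ => s ‖z‖ / ‖z‖) :=
    hw.integrable_of_hasCompactSupport hwc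
  have hwn : ∀ z : ℂ, 0 ≤ s ‖z‖ / ‖z‖ := fun z => div_nonneg (hsn _) (norm_nonneg _)
  have hint : Integrable (fun z : ℂ => (s ‖z‖ / ‖z‖) * |si A φ z|) := by
    refine hwi.mul_bdd (c := 1) (si_meas A hA φ).norm.aestronglyMeasurable
      (ae_of_all _ fun z => ?_)
    simpa using si_bd A φ z
  rw [ofReal_integral_eq_lintegral_ofReal hint
    (ae_of_all _ fun z => mul_nonneg (hwn z) (abs_nonneg _)),
    ← Complex.lintegral_comp_polarCoord_symm]
  have e1 : ∫⁻ p in polarCoord.target, ENNReal.ofReal p.1 •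
      ENNReal.ofReal ((s ‖Complex.polarCoord.symm p‖ / ‖Complex.polarCoord.symm p‖) *
        |si A φ (Complex.polarCoord.symm p)|) =
      ∫⁻ p in Ioi (0 : ℝ) ×ˢ Ioo (-π) π, ENNReal.ofReal (s p.1) *
        ENNReal.ofReal |si A φ ((p.1 : ℂ) * ex p.2)| := by
    refine setLIntegral_congr_fun (measurableSet_Ioi.prod measurableSet_Ioo) ?_
    intro p hp
    have hp1 : 0 < p.1 := hp.1
    have hn : ‖(p.1 : ℂ) * ex p.2‖ = p.1 := by
      rw [norm_mul, ex_norm, mul_one, Complex.norm_real, Real.norm_eq_abs, abs_of_pos hp1]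
    simp only [smul_eq_mul, pol_symm, hn]
    rw [← ENNReal.ofReal_mul hp1.le, ← ENNReal.ofReal_mul (hsn _)]
    congr 1
    field_simp
  rw [e1, Measure.volume_eq_prod, ← Measure.prod_restrict, lintegral_prod]
  · refine lintegral_congr fun r => ?_
    have h1 : Measurable (fun θ : ℝ => (r : ℂ) * ex θ) :=
      (continuous_const.mul ex_cont).measurable
    have h2 : Measurable (fun θ : ℝ => si A φ ((r : ℂ) * ex θ)) := (si_meas A hA φ).comp h1
    have hme : Measurable (fun θ : ℝ => ENNReal.ofReal |si A φ ((r : ℂ) * ex θ)|) :=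
      ENNReal.measurable_ofReal.comp h2.norm
    exact lintegral_const_mul (ENNReal.ofReal (s r)) hme
  · refine Measurable.aemeasurable ?_
    exact ((ENNReal.measurable_ofReal.comp hs.measurable).comp measurable_fst).mul
      (meas_pol A hA φ)

/-- The slice `{θ : r e^{iθ} ∈ A}`. -/
def Sl (A : Set ℂ) (r : ℝ) : Set ℝ := {θ | (r : ℂ) * ex θ ∈ A}

lemma Sl_meas (A : Set ℂ) (hA : MeasurableSet A) (r : ℝ) : MeasurableSet (Sl A r) :=
  hA.preimage (continuous_const.mul ex_cont).measurable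

lemma Sl_ind (A : Set ℂ) (r θ : ℝ) :
    (Sl A r).indicator (fun _ => (1 : ℝ)) θ = A.indicator (fun _ => (1 : ℝ)) ((r : ℂ) * ex θ) := by
  by_cases h : (r : ℂ) * ex θ ∈ A
  · rw [indicator_of_mem h, indicator_of_mem (show θ ∈ Sl A r from h)]
  · rw [indicator_of_notMem h, indicator_of_notMem (show θ ∉ Sl A r from h)]

lemma si_Sl (A : Set ℂ) (r φ θ : ℝ) : |si A φ ((r : ℂ) * ex θ)| =
    |(Sl A r).indicator (fun _ => (1 : ℝ)) (θ + φ) - (Sl A r).indicator (fun _ => (1 : ℝ)) θ| := by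
  have e : ex φ * ((r : ℂ) * ex θ) = (r : ℂ) * ex (θ + φ) := by rw [ex_add]; ring
  rw [Sl_ind, Sl_ind, si, abs_sub_comm, e]

lemma Sl_vol (A : Set ℂ) (r : ℝ) : (volume (Sl A r ∩ Ioo (-π) π)).toReal = al A r := by
  unfold al
  congr 2
  ext θ
  exact and_comm

theorem t_xray (hpol : S_pol) (hrad : S_rad) (hcirc : S_circ) : S_xray := by
  intro b A hA hAD C hP N s hN hNc hN0 hs _ hs0 hsn hbd
  have hdN : Continuous (deriv N) := hN.continuous_deriv le_rfl
  have hdN0 : tsupport (deriv N) ⊆ Ioo (0 : ℝ) 1 := tsupport_deriv_subset.trans hN0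
  have hk1 : Integrable (fun z : ℂ => deriv N ‖z‖ / ‖z‖) :=
    (w_cont _ hdN hdN0).integrable_of_hasCompactSupport (w_sup _ hdN0).1
  obtain ⟨hal, hal2, hpi⟩ := hpol A hA hAD (fun r => deriv N r / r)
    (hdN.measurable.div measurable_id) hk1.integrableOn
  have hNal : ∫ z in A, deriv N ‖z‖ / ‖z‖ = ∫ r in Ioo (0 : ℝ) 1, deriv N r * al A r := by
    rw [hpi]
    refine setIntegral_congr_fun measurableSet_Ioo fun r hr => ?_
    have : r ≠ 0 := hr.1.ne'
    field_simp
  have hvar := var hrad b A hA C hP N s hN hNc hN0 hs hs0 hsn hbd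
  rw [hNal] at hvar
  set C' : ℝ := C - ∫ r in Ioo (0 : ℝ) 1, deriv N r * al A r with hC'
  have hC0 : 0 ≤ C' := by
    refine le_trans ?_ (hvar 1 one_pos)
    rw [inv_one, one_mul]
    exact integral_nonneg fun z => mul_nonneg (div_nonneg (hsn _) (norm_nonneg _)) (abs_nonneg _)
  set G : Set ℝ := {r : ℝ | r ∈ Ioo (0 : ℝ) 1 ∧ 0 < al A r ∧ al A r < 2 * π} with hG
  have hGm : MeasurableSet G :=
    measurableSet_Ioo.inter ((measurableSet_lt measurable_const hal).inter
      (measurableSet_lt hal measurable_const))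
  let J : ℕ → ℝ → ℝ≥0∞ := fun n r =>
    ∫⁻ θ in Ioo (-π) π, ENNReal.ofReal |si A (2 * π / ((n + 1 : ℕ) : ℝ)) ((r : ℂ) * ex θ)|
  have hJm : ∀ n, Measurable (J n) := fun n =>
    (meas_pol A hA (2 * π / ((n + 1 : ℕ) : ℝ))).lintegral_prod_right'
  let f : ℕ → ℝ → ℝ≥0∞ := fun n r =>
    ENNReal.ofReal (((n + 1 : ℕ) : ℝ) / (2 * π)) * (ENNReal.ofReal (s r) * J n r)
  have hfm : ∀ n, Measurable (f n) := fun n =>
    ((ENNReal.measurable_ofReal.comp hs.continuous.measurable).mul (hJm n)).const_mul _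
  have hle : ∀ n, ∫⁻ r in G, f n r ≤ ENNReal.ofReal C' := by
    intro n
    have hn : (0 : ℝ) < ((n + 1 : ℕ) : ℝ) := by positivity
    have hφ : 0 < 2 * π / ((n + 1 : ℕ) : ℝ) := by positivity
    have h1 : ∫⁻ r in G, f n r ≤ ∫⁻ r in Ioi (0 : ℝ), f n r :=
      lintegral_mono_set fun r hr => hr.1.1
    refine h1.trans ?_
    show ∫⁻ r in Ioi (0 : ℝ), ENNReal.ofReal (((n + 1 : ℕ) : ℝ) / (2 * π)) *
      (ENNReal.ofReal (s r) * J n r) ≤ _
    have hme : Measurable (fun r => ENNReal.ofReal (s r) * J n r) :=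
      (ENNReal.measurable_ofReal.comp hs.continuous.measurable).mul (hJm n)
    rw [lintegral_const_mul _ hme,
      ← polar_l A hA s hs.continuous hs0 hsn, ← ENNReal.ofReal_mul (by positivity)]
    refine ENNReal.ofReal_le_ofReal ?_
    have h2 := hvar _ hφ
    rwa [inv_div] at h2
  have hge : ∀ δ : ℝ, 0 < δ → ∀ r ∈ G,
      ENNReal.ofReal (s r * (2 - δ)) ≤ liminf (fun n => f n r) atTop := by
    intro δ hδ r hr
    have hp : ∀ θ, θ + 2 * π ∈ Sl A r ↔ θ ∈ Sl A r := by
      intro θ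
      show (r : ℂ) * ex (θ + 2 * π) ∈ A ↔ (r : ℂ) * ex θ ∈ A
      rw [ex_add, ex_two_pi, mul_one]
    have hfin : volume (Sl A r ∩ Ioo (-π) π) ≠ ⊤ :=
      ((measure_mono inter_subset_right).trans_lt (by simp)).ne
    have hv := Sl_vol A r
    have hpos : 0 < volume (Sl A r ∩ Ioo (-π) π) := by
      refine pos_iff_ne_zero.2 fun h => ?_
      rw [h, ENNReal.toReal_zero] at hv
      exact absurd hr.2.1 (by rw [← hv]; exact lt_irrefl _)
    have hlt : volume (Sl A r ∩ Ioo (-π) π) < ENNReal.ofReal (2 * π) := by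
      rw [← ENNReal.ofReal_toReal hfin, hv]
      exact (ENNReal.ofReal_lt_ofReal_iff (by positivity)).2 hr.2.2
    have hc := hcirc (Sl A r) (Sl_meas A hA r) hp hpos hlt δ hδ
    have hc' := (tendsto_add_atTop_nat 1).eventually hc
    refine le_liminf_of_le (by isBoundedDefault) ?_
    filter_upwards [hc'] with n hn
    have hI : IntegrableOn (fun θ : ℝ => |si A (2 * π / ((n + 1 : ℕ) : ℝ)) ((r : ℂ) * ex θ)|)
        (Ioo (-π) π) := by
      refine Measure.integrableOn_of_bounded (M := 1) (by simp) ?_ (ae_of_all _ fun θ => ?_)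
      · exact (((si_meas A hA _).comp
          (continuous_const.mul ex_cont).measurable).norm).aestronglyMeasurable
      · simpa using si_bd A _ _
    have hJ : J n r = ENNReal.ofReal (∫ θ in Ioo (-π) π,
        |si A (2 * π / ((n + 1 : ℕ) : ℝ)) ((r : ℂ) * ex θ)|) := by
      rw [ofReal_integral_eq_lintegral_ofReal hI (ae_of_all _ fun θ => abs_nonneg _)]
    show _ ≤ ENNReal.ofReal (((n + 1 : ℕ) : ℝ) / (2 * π)) * (ENNReal.ofReal (s r) * J n r)
    rw [hJ, ← ENNReal.ofReal_mul (hsn _), ← ENNReal.ofReal_mul (by positivity)]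
    refine ENNReal.ofReal_le_ofReal ?_
    have h3 : ∫ θ in Ioo (-π) π, |si A (2 * π / ((n + 1 : ℕ) : ℝ)) ((r : ℂ) * ex θ)| =
        ∫ θ in Ioo (-π) π, |(Sl A r).indicator (fun _ => (1 : ℝ))
          (θ + 2 * π / ((n + 1 : ℕ) : ℝ)) - (Sl A r).indicator (fun _ => (1 : ℝ)) θ| :=
      integral_congr_ae (ae_of_all _ fun θ => si_Sl A r _ θ)
    rw [h3]
    have h4 := mul_le_mul_of_nonneg_left hn (hsn r)
    linarith
  have hsG : IntegrableOn s G := by
    have : HasCompactSupport s :=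
      HasCompactSupport.of_support_subset_isCompact (isCompact_Icc (a := (0 : ℝ)) (b := 1))
        ((subset_tsupport _).trans (hs0.trans Ioo_subset_Icc_self))
    exact (hs.continuous.integrable_of_hasCompactSupport this).integrableOn
  have key : ∀ δ : ℝ, 0 < δ → δ ≤ 2 → (2 - δ) * ∫ r in G, s r ≤ C' := by
    intro δ hδ hδ2
    have h1 : ∫⁻ r in G, ENNReal.ofReal (s r * (2 - δ)) ≤ ENNReal.ofReal C' := by
      calc ∫⁻ r in G, ENNReal.ofReal (s r * (2 - δ))
          ≤ ∫⁻ r in G, liminf (fun n => f n r) atTop :=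
            setLIntegral_mono' hGm fun r hr => hge δ hδ r hr
        _ ≤ liminf (fun n => ∫⁻ r in G, f n r) atTop := lintegral_liminf_le hfm
        _ ≤ liminf (fun _ : ℕ => ENNReal.ofReal C') atTop :=
            liminf_le_liminf (Eventually.of_forall hle)
        _ = ENNReal.ofReal C' := liminf_const _
    have h2 : ENNReal.ofReal (∫ r in G, s r * (2 - δ)) =
        ∫⁻ r in G, ENNReal.ofReal (s r * (2 - δ)) :=
      ofReal_integral_eq_lintegral_ofReal (hsG.mul_const _)
        (ae_of_all _ fun r => mul_nonneg (hsn r) (by linarith))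
    rw [← h2, ENNReal.ofReal_le_ofReal_iff hC0, integral_mul_const] at h1
    linarith
  have hI0 : 0 ≤ ∫ r in G, s r := integral_nonneg fun r => hsn r
  have fin : 2 * ∫ r in G, s r ≤ C' := by
    refine le_of_forall_pos_le_add fun ε hε => ?_
    set I := ∫ r in G, s r with hI
    have hd : 0 < min 2 (ε / (I + 1)) := lt_min two_pos (by positivity)
    have h1 := key _ hd (min_le_left _ _)
    have h2 : min 2 (ε / (I + 1)) * I ≤ ε := by
      calc min 2 (ε / (I + 1)) * I ≤ (ε / (I + 1)) * I :=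
            mul_le_mul_of_nonneg_right (min_le_right _ _) hI0
        _ ≤ (ε / (I + 1)) * (I + 1) := by
            apply mul_le_mul_of_nonneg_left (by linarith); positivity
        _ = ε := by field_simp
    linarith
  rw [hC'] at fin
  linarith

end Pool.Agent.TH154.MI
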